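import Pool.Agent.Helper57.SJ.Stmts

set_option autoImplicit false

namespace Pool.Agent.Helper35.SJ

open MeasureTheory Set Filter Topology
open Pool.Agent.Helper57.SJ

/-- Markov's inequality for the integrals over intervals inside `[T, 2T]` -/
theorem st_MK2 : ST_MK2 := by
  intro f H c T hH hc hT hf hf0
  have hT0 : 0 < T := by linarith
  obtain ⟨g, hgd⟩ : ∃ g : ℝ → ℝ, g = (Icc T (2 * T)).indicator f := ⟨_, rfl⟩
  have hgI : Integrable g volume := by
    rw [hgd]; exact hf.integrable_indicator measurableSet_Icc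
  have hg0 : ∀ x, 0 ≤ g x := fun x => by
    rw [hgd]; exact indicator_nonneg (fun y _ => hf0 y) x
  have hgf : ∀ x ∈ Icc T (2 * T), g x = f x := by
    intro x hx
    rw [hgd, indicator_of_mem hx]
  have hgi : ∀ a b : ℝ, IntervalIntegrable g volume a b := fun a b => hgI.intervalIntegrable
  obtain ⟨F, hF⟩ : ∃ F : ℝ → ℝ, F = fun x => ∫ t in T..x, g t := ⟨_, rfl⟩
  have hFc : Continuous F := by
    rw [hF]
    exact intervalIntegral.continuous_primitive hgi _
  have hFi : ∀ a b : ℝ, IntervalIntegrable F volume a b := fun a b => hFc.intervalIntegrable a b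
  have hsub : ∀ a b : ℝ, F b - F a = ∫ t in a..b, g t := by
    intro a b
    rw [hF]
    exact intervalIntegral.integral_interval_sub_left (hgi _ _) (hgi _ _)
  have hmono : ∀ a b : ℝ, a ≤ b → F a ≤ F b := by
    intro a b hab
    have h1 : 0 ≤ ∫ t in a..b, g t := intervalIntegral.integral_nonneg hab fun u _ => hg0 u
    rw [← hsub] at h1
    linarith
  obtain ⟨G, hG⟩ : ∃ G : ℝ → ℝ, G = fun u => F (u + (H + 1)) - F (u - 1) := ⟨_, rfl⟩
  have hGc : Continuous G := by
    rw [hG]
    exact (hFc.comp (by fun_prop)).sub (hFc.comp (by fun_prop))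
  have hG0 : ∀ u, 0 ≤ G u := by
    intro u
    rw [hG]
    have := hmono (u - 1) (u + (H + 1)) (by linarith)
    change 0 ≤ F (u + (H + 1)) - F (u - 1)
    linarith
  have hI : ∫ t in T..(2 * T), f t = ∫ t, g t := by
    rw [hgd, integral_indicator measurableSet_Icc, integral_Icc_eq_integral_Ioc,
      intervalIntegral.integral_of_le (by linarith)]
  have htot : ∀ a b : ℝ, a ≤ b → F b - F a ≤ ∫ t, g t := by
    intro a b hab
    rw [hsub, intervalIntegral.integral_of_le hab]
    exact setIntegral_le_integral hgI (Eventually.of_forall hg0)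
  have hGint : ∫ u in T..(2 * T), G u ≤ (H + 2) * ∫ t, g t := by
    have e1 : ∫ u in T..(2 * T), G u =
        (∫ u in (T + (H + 1))..(2 * T + (H + 1)), F u) - ∫ u in (T - 1)..(2 * T - 1), F u := by
      have i1 : IntervalIntegrable (fun u => F (u + (H + 1))) volume T (2 * T) :=
        Continuous.intervalIntegrable (hFc.comp (by fun_prop)) _ _
      have i2 : IntervalIntegrable (fun u => F (u - 1)) volume T (2 * T) :=
        Continuous.intervalIntegrable (hFc.comp (by fun_prop)) _ _
      rw [hG]
      change ∫ u in T..(2 * T), (F (u + (H + 1)) - F (u - 1)) = _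
      rw [intervalIntegral.integral_sub i1 i2,
        intervalIntegral.integral_comp_add_right (fun u => F u),
        intervalIntegral.integral_comp_sub_right (fun u => F u)]
    have e2 : (∫ u in (T + (H + 1))..(2 * T + (H + 1)), F u) - ∫ u in (T - 1)..(2 * T - 1), F u =
        (∫ u in (2 * T - 1)..(2 * T + (H + 1)), F u) - ∫ u in (T - 1)..(T + (H + 1)), F u := by
      rw [intervalIntegral.integral_interval_sub_interval_comm (hFi _ _) (hFi _ _) (hFi _ _),
        intervalIntegral.integral_symm (T - 1) (T + (H + 1)),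
        intervalIntegral.integral_symm (2 * T - 1) (2 * T + (H + 1))]
      ring
    have e3 : ∫ u in (2 * T - 1)..(2 * T + (H + 1)), F u ≤ (H + 2) * F (2 * T + (H + 1)) := by
      have h1 := intervalIntegral.integral_mono_on (μ := volume)
        (show 2 * T - 1 ≤ 2 * T + (H + 1) by linarith) (hFi _ _)
        (intervalIntegrable_const (c := F (2 * T + (H + 1)))) fun x hx => hmono x _ hx.2
      rw [intervalIntegral.integral_const, smul_eq_mul] at h1
      calc _ ≤ _ := h1
        _ = (H + 2) * F (2 * T + (H + 1)) := by ring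
    have e4 : (H + 2) * F (T - 1) ≤ ∫ u in (T - 1)..(T + (H + 1)), F u := by
      have h1 := intervalIntegral.integral_mono_on (μ := volume)
        (show T - 1 ≤ T + (H + 1) by linarith)
        (intervalIntegrable_const (c := F (T - 1))) (hFi _ _) fun x hx => hmono _ x hx.1
      rw [intervalIntegral.integral_const, smul_eq_mul] at h1
      calc (H + 2) * F (T - 1) = _ := by ring
        _ ≤ _ := h1
    have e7 := htot (T - 1) (2 * T + (H + 1)) (by linarith)
    rw [e1, e2]
    calc _ ≤ (H + 2) * F (2 * T + (H + 1)) - (H + 2) * F (T - 1) := by linarith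
      _ = (H + 2) * (F (2 * T + (H + 1)) - F (T - 1)) := by ring
      _ ≤ _ := mul_le_mul_of_nonneg_left e7 (by linarith)
  have hms : MeasurableSet {u : ℝ | c ≤ G u} := measurableSet_le measurable_const hGc.measurable
  have hfin : volume (Icc T (2 * T)) ≠ ⊤ := by simp
  refine ⟨({u : ℝ | c ≤ G u} ∩ Icc T (2 * T)) ∪
    (Ico T (T + 1) ∪ Ioc (2 * T - (H + 1)) (2 * T)), ?_, ?_, ?_⟩
  · rintro x (hx | hx | hx)
    · exact hx.2
    · exact ⟨hx.1, by linarith [hx.2]⟩
    · exact ⟨by linarith [hx.1], hx.2⟩
  · have hGi : Integrable G (volume.restrict (Icc T (2 * T))) :=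
      (hGc.continuousOn.integrableOn_compact isCompact_Icc)
    have h1 := mul_meas_ge_le_integral_of_nonneg (μ := volume.restrict (Icc T (2 * T)))
      (Eventually.of_forall hG0) hGi c
    rw [measureReal_restrict_apply hms] at h1
    have h2 : ∫ x in Icc T (2 * T), G x = ∫ u in T..(2 * T), G u := by
      rw [intervalIntegral.integral_of_le (by linarith), integral_Icc_eq_integral_Ioc]
    rw [h2] at h1
    have h3 : volume.real ({u : ℝ | c ≤ G u} ∩ Icc T (2 * T)) ≤
        (H + 2) * ((∫ t in T..(2 * T), f t) / c) := by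
      rw [hI, ← mul_div_assoc, le_div_iff₀ hc, mul_comm]
      exact h1.trans hGint
    have h4 : volume.real (Ico T (T + 1)) = 1 := by
      rw [Measure.real, Real.volume_Ico]; simp
    have h5 : volume.real (Ioc (2 * T - (H + 1)) (2 * T)) = H + 1 := by
      rw [Measure.real, Real.volume_Ioc, show 2 * T - (2 * T - (H + 1)) = H + 1 by ring,
        ENNReal.toReal_ofReal (by linarith)]
    calc _ ≤ volume.real ({u : ℝ | c ≤ G u} ∩ Icc T (2 * T)) +
          volume.real (Ico T (T + 1) ∪ Ioc (2 * T - (H + 1)) (2 * T)) := measureReal_union_le _ _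
      _ ≤ volume.real ({u : ℝ | c ≤ G u} ∩ Icc T (2 * T)) +
          (volume.real (Ico T (T + 1)) + volume.real (Ioc (2 * T - (H + 1)) (2 * T))) := by
          gcongr; exact measureReal_union_le _ _
      _ ≤ (H + 2) * ((∫ t in T..(2 * T), f t) / c) + (1 + (H + 1)) := by
          rw [h4, h5]; gcongr
      _ = _ := by ring
  · intro u hu hE
    have hu1 : T ≤ u - 1 := by
      by_contra h
      exact hE (Or.inr (Or.inl ⟨hu.1, by linarith⟩))
    have hu2 : u + H + 1 ≤ 2 * T := by
      by_contra h
      exact hE (Or.inr (Or.inr ⟨by linarith, hu.2⟩))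
    refine ⟨hu1, hu2, ?_⟩
    have h1 : ¬ c ≤ G u := fun h => hE (Or.inl ⟨h, hu⟩)
    have h2 : G u = ∫ t in (u - 1)..(u + H + 1), f t := by
      rw [hG]
      change F (u + (H + 1)) - F (u - 1) = _
      rw [hsub, ← add_assoc]
      refine intervalIntegral.integral_congr fun x hx => ?_
      rw [uIcc_of_le (by linarith)] at hx
      exact hgf x ⟨by linarith [hx.1], by linarith [hx.2]⟩
    rw [← h2]
    exact (not_le.1 h1).le

end Pool.Agent.Helper35.SJ
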